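import Pool.Agent.Y215.MC.Base

/-!
Project MC, job MC-VARX: the bundle `P (Sym ^ 3 S)` is a projective variety covered by affine
spaces.
-/

set_option autoImplicit false
set_option linter.unusedSectionVars false
set_option linter.deprecated false

namespace Pool.Agent.Y215.MC.X

open MvPolynomial Pool.Agent.Y166.GM Pool.Agent.Y166.SM Pool.Agent.Y198.MC Pool.Agent.Y215.MC

/-- The standard indices of the coefficients. -/
def tu {N : ℕ} (i j : Fin N) : Fin 4 → Ta N :=
  ![(i, i, i), (i, i, j), (i, j, j), (j, j, j)]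

section
variable {A : Type} [CommRing A] {N : ℕ}

/-- The first basis vector in the chart of the index `j0`. -/
def Uj (j0 : Co N) (V : Co N → A) : Fin N → A := fun r => V ((r, j0.1.2), j0.2)

/-- The second basis vector in the chart of the index `j0`. -/
def Wj (j0 : Co N) (V : Co N → A) : Fin N → A := fun r => V ((j0.1.1, r), j0.2)

/-- The coefficients in the chart of the index `j0`. -/
def Cj (j0 : Co N) (V : Co N → A) : Fin 4 → A := fun n => V (j0.1, tu j0.1.1 j0.1.2 n)

/-- The equations of the chart. -/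
noncomputable def Th (k : Type) [Field k] (N : ℕ) (j0 j : Co N) : MvPolynomial (Co N) k :=
  ptX (Uj j0 X) (Wj j0 X) (Cj j0 X) j

theorem eval_Th {k : Type} [Field k] (V : Co N → k) (j0 j : Co N) :
    eval V (Th k N j0 j) = ptX (Uj j0 V) (Wj j0 V) (Cj j0 V) j := by
  unfold Th
  rw [ptX_map]
  have h1 : (fun i => eval V (Uj j0 (X : Co N → MvPolynomial (Co N) k) i)) = Uj j0 V := by
    funext i
    simp [Uj]
  have h2 : (fun i => eval V (Wj j0 (X : Co N → MvPolynomial (Co N) k) i)) = Wj j0 V := by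
    funext i
    simp [Wj]
  have h3 : (fun i => eval V (Cj j0 (X : Co N → MvPolynomial (Co N) k) i)) = Cj j0 V := by
    funext i
    simp [Cj]
  rw [h1, h2, h3]

end

section
variable {k : Type} [Field k] {N : ℕ}

/-- The formulas in the chart of any index. -/
theorem chart_gen {x : PP k (Co N)} (hx : x ∈ XX k N) {V : Co N → k} (hV : Rep x V)
    (j0 : Co N) (h0 : V j0 ≠ 0) :
    ∃ (u v : Fin N → k) (c : Fin 4 → k), wdg u v j0.1 ≠ 0 ∧ cub u v c j0.2 ≠ 0 ∧
      (∀ j, V j / V j0 = (wdg u v j.1 / wdg u v j0.1) * (cub u v c j.2 / cub u v c j0.2)) ∧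
      ∀ j, V j / V j0 = ptX (Uj j0 fun i => V i / V j0) (Wj j0 fun i => V i / V j0)
        (Cj j0 fun i => V i / V j0) j := by
  obtain ⟨u, v, c, hrep⟩ := hx
  obtain ⟨a, ha, hVa⟩ := hrep.exists_smul hV
  have hVj : ∀ j, V j = a * (wdg u v j.1 * cub u v c j.2) := by
    intro j
    rw [hVa]
    rfl
  have hl : wdg u v j0.1 ≠ 0 := by
    intro h
    apply h0
    rw [hVj, h, zero_mul, mul_zero]
  have hG : cub u v c j0.2 ≠ 0 := by
    intro h
    apply h0
    rw [hVj, h, mul_zero, mul_zero]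
  have hq : ∀ j, V j / V j0 = (wdg u v j.1 / wdg u v j0.1) *
      (cub u v c j.2 / cub u v c j0.2) := by
    intro j
    rw [hVj, hVj]
    field_simp
  refine ⟨u, v, c, hl, hG, hq, fun j => ?_⟩
  have hn := nrm_of u v j0.1.1 j0.1.2 hl
  have hU : (Uj j0 fun i => V i / V j0) = fun r => wdg u v (r, j0.1.2) / wdg u v j0.1 := by
    funext r
    show V ((r, j0.1.2), j0.2) / V j0 = _
    rw [hq]
    simp only
    rw [div_self hG, mul_one]
  have hW : (Wj j0 fun i => V i / V j0) = fun r => wdg u v (j0.1.1, r) / wdg u v j0.1 := by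
    funext r
    show V ((j0.1.1, r), j0.2) / V j0 = _
    rw [hq]
    simp only
    rw [div_self hG, mul_one]
  have hC : (Cj j0 fun i => V i / V j0) = fun n => (cub u v c j0.2)⁻¹ *
      (![cub u v c (j0.1.1, j0.1.1, j0.1.1), cub u v c (j0.1.1, j0.1.1, j0.1.2),
        cub u v c (j0.1.1, j0.1.2, j0.1.2), cub u v c (j0.1.2, j0.1.2, j0.1.2)] : Fin 4 → k) n := by
    funext n
    show V (j0.1, tu j0.1.1 j0.1.2 n) / V j0 = _
    rw [hq]
    simp only
    rw [div_self hl, one_mul, div_eq_inv_mul]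
    congr 1
    fin_cases n <;> rfl
  rw [hU, hW, hC]
  unfold ptX
  rw [cub_smul, hq, ← hn.cub c j.2]
  have h1 := hn.wdg j.1
  have h2 : wdg u v (j0.1.1, j0.1.2) = wdg u v j0.1 := rfl
  rw [h2] at h1
  rw [h1, mul_div_cancel_left₀ _ hl, div_eq_inv_mul]

theorem closed (k : Type) [Field k] (N : ℕ) : IsClosed (XX k N) := by
  apply closed_of_chart (XX k N) (Th k N)
  · intro x hx V hV j0 h0 j
    obtain ⟨u, v, c, -, -, -, h⟩ := chart_gen hx hV j0 h0
    rw [eval_Th]
    exact h j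
  · intro p V hV j0 h0 h
    refine ⟨Uj j0 fun i => V i / V j0, Wj j0 fun i => V i / V j0, Cj j0 fun i => V i / V j0, ?_⟩
    have h1 : ptX (Uj j0 fun i => V i / V j0) (Wj j0 fun i => V i / V j0)
        (Cj j0 fun i => V i / V j0) = (V j0)⁻¹ • V := by
      funext j
      rw [← eval_Th, ← h j, Pi.smul_apply, smul_eq_mul, div_eq_inv_mul]
    rw [h1]
    exact hV.smul (inv_ne_zero h0)

/-- The polynomials which parametrise the variety. -/
noncomputable def Ph (k : Type) [Field k] (N : ℕ) (j : Co N) :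
    MvPolynomial (Fin N ⊕ (Fin N ⊕ Fin 4)) k :=
  ptX (fun i => X (.inl i)) (fun i => X (.inr (.inl i))) (fun i => X (.inr (.inr i))) j

theorem eval_Ph (c : Fin N ⊕ (Fin N ⊕ Fin 4) → k) (j : Co N) :
    eval c (Ph k N j) = ptX (fun i => c (.inl i)) (fun i => c (.inr (.inl i)))
      (fun i => c (.inr (.inr i))) j := by
  unfold Ph
  rw [ptX_map]
  simp only [eval_X]

theorem nonempty (k : Type) [Field k] (N : ℕ) (hN : 3 ≤ N) : (XX k N).Nonempty := by
  have h0 : (⟨0, by omega⟩ : Fin N) ≠ ⟨1, by omega⟩ := by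
    intro h
    have := congrArg Fin.val h
    simp at this
  have h1 : ptX (Ub ⟨0, by omega⟩ ⟨1, by omega⟩ (fun _ => (0 : k)))
      (Wb ⟨0, by omega⟩ ⟨1, by omega⟩ (fun _ => (0 : k))) ![1, 0, 0, 0] ≠
      (0 : Co N → k) := by
    intro h
    have h2 := congrFun h ((⟨0, by omega⟩, ⟨1, by omega⟩), (⟨0, by omega⟩, ⟨0, by omega⟩,
      ⟨0, by omega⟩))
    simp only [ptX, wdg, cub, Ub_i, Wb_j, Wb_i h0, Ub_j h0] at h2
    simp at h2
  obtain ⟨z, hz⟩ := exists_rep h1
  exact ⟨z, _, _, _, hz⟩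

theorem irreducible (k : Type) [Field k] [Infinite k] (N : ℕ) (hN : 3 ≤ N) :
    IsIrreducible (XX k N) := by
  apply irreducible_of_param (XX k N) (Ph k N) _ (nonempty k N hN)
  intro z
  constructor
  · rintro ⟨u, v, c, h⟩
    refine ⟨Sum.elim u (Sum.elim v c), ?_⟩
    simp only [eval_Ph, Sum.elim_inl, Sum.elim_inr]
    exact h
  · rintro ⟨c, h⟩
    simp only [eval_Ph] at h
    exact ⟨_, _, _, h⟩

/-- The parameters of the chart. -/
abbrev Ix {N : ℕ} (i j : Fin N) (m : Fin 4) : Type := (Rx i j ⊕ Rx i j) ⊕ {n : Fin 4 // n ≠ m}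

/-- The coefficients of the tensor in the chart. -/
def Cb {A : Type} [CommRing A] (m : Fin 4) (y : {n : Fin 4 // n ≠ m} → A) : Fin 4 → A := fun n =>
  if h : n ≠ m then y ⟨n, h⟩ else 1

theorem Cb_m {A : Type} [CommRing A] (m : Fin 4) (y : {n : Fin 4 // n ≠ m} → A) :
    Cb m y m = 1 := by
  simp [Cb]

theorem Cb_n {A : Type} [CommRing A] (m : Fin 4) (y : {n : Fin 4 // n ≠ m} → A)
    (n : {n : Fin 4 // n ≠ m}) : Cb m y n.1 = y n := by
  simp [Cb, n.2]

theorem Cb_map {A B : Type} [CommRing A] [CommRing B] (f : A →+* B) (m : Fin 4)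
    (y : {n : Fin 4 // n ≠ m} → A) (n : Fin 4) : f (Cb m y n) = Cb m (fun n => f (y n)) n := by
  unfold Cb
  split_ifs <;> simp

theorem eq_Cb {A : Type} [CommRing A] (m : Fin 4) (z : Fin 4 → A) (hz : z m = 1) :
    z = Cb m fun n => z n.1 := by
  funext n
  by_cases h : n = m
  · rw [h, Cb_m, hz]
  · exact (Cb_n m (fun n : {n : Fin 4 // n ≠ m} => z n.1) ⟨n, h⟩).symm

/-- The coordinates of the points of the chart. -/
def ps {A : Type} [CommRing A] {N : ℕ} (i j : Fin N) (m : Fin 4) (c : Ix i j m → A) : Co N → A :=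
  ptX (Ub i j fun r => c (.inl (.inl r))) (Wb i j fun r => c (.inl (.inr r)))
    (Cb m fun n => c (.inr n))

/-- The coordinates which give the parameters. -/
def rh {N : ℕ} (i j : Fin N) (m : Fin 4) : Ix i j m → Co N
  | .inl (.inl r) => ((r.1, j), tu i j m)
  | .inl (.inr r) => ((i, r.1), tu i j m)
  | .inr n => ((i, j), tu i j n.1)

theorem cub_tu {A : Type} [CommRing A] {i j : Fin N} (hij : i ≠ j) (y y' : Rx i j → A)
    (c : Fin 4 → A) (n : Fin 4) : cub (Ub i j y) (Wb i j y') c (tu i j n) = c n := by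
  fin_cases n <;> simp [tu, cub, Ub_i, Wb_j, Wb_i hij, Ub_j hij]

theorem ps_zero {A : Type} [CommRing A] {i j : Fin N} (hij : i ≠ j) (m : Fin 4)
    (c : Ix i j m → A) : ps i j m c ((i, j), tu i j m) = 1 := by
  unfold ps ptX
  simp only
  rw [cub_tu hij, Cb_m]
  simp [wdg, Ub_i, Wb_j, Wb_i hij, Ub_j hij]

theorem ps_rh {A : Type} [CommRing A] {i j : Fin N} (hij : i ≠ j) (m : Fin 4)
    (c : Ix i j m → A) (t : Ix i j m) : ps i j m c (rh i j m t) = c t := by
  rcases t with (r | r) | n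
  · simp only [ps, ptX, rh]
    rw [cub_tu hij, Cb_m]
    simp [wdg, Ub_r, Wb_j, Ub_j hij]
  · simp only [ps, ptX, rh]
    rw [cub_tu hij, Cb_m]
    simp [wdg, Wb_r, Ub_i, Wb_i hij]
  · simp only [ps, ptX, rh]
    rw [cub_tu hij, Cb_n]
    simp [wdg, Ub_i, Wb_j, Wb_i hij, Ub_j hij]

theorem ps_map {A B : Type} [CommRing A] [CommRing B] (f : A →+* B) (i j : Fin N) (m : Fin 4)
    (c : Ix i j m → A) (t : Co N) : f (ps i j m c t) = ps i j m (fun i => f (c i)) t := by
  unfold ps
  rw [ptX_map]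
  simp only [Ub_map, Wb_map, Cb_map]

theorem card_Ix {i j : Fin N} (hij : i ≠ j) (hN : 3 ≤ N) (m : Fin 4) :
    Fintype.card (Ix i j m) = 2 * N - 1 := by
  have h1 : Fintype.card {n : Fin 4 // n ≠ m} = 3 := by
    rw [Fintype.card_subtype_compl, Fintype.card_fin, Fintype.card_subtype_eq]
  rw [Fintype.card_sum, Fintype.card_sum, card_Rx hij, h1]
  omega

theorem covered (k : Type) [Field k] (N : ℕ) (hN : 3 ≤ N) :
    CoveredByAffine (XX k N) (2 * N - 1) := by
  classical
  intro x hx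
  have hrep := rep_rep x
  obtain ⟨j1, hj1⟩ : ∃ j0, x.rep j0 ≠ 0 := by
    by_contra hcon
    push Not at hcon
    exact hrep.ne_zero (funext hcon)
  obtain ⟨⟨i, j⟩, t⟩ := j1
  -- the indices
  obtain ⟨u, v, c, hl, hG, hq, hpt⟩ := chart_gen hx hrep ((i, j), t) hj1
  have hij : i ≠ j := by
    rintro rfl
    apply hl
    simp [wdg, mul_comm]
  have hn := nrm_of u v i j hl
  obtain ⟨m, hm⟩ : ∃ m, cub u v c (tu i j m) ≠ 0 := by
    by_contra hcon
    push Not at hcon
    apply hG
    show cub u v c t = 0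
    rw [hn.cub c t]
    have h0 := hcon 0
    have h1 := hcon 1
    have h2 := hcon 2
    have h3 := hcon 3
    simp only [tu, Matrix.cons_val_zero, Matrix.cons_val_one, Matrix.cons_val] at h0 h1 h2 h3
    rw [h0, h1, h2, h3]
    simp [cub]
  have hj0 : x.rep ((i, j), tu i j m) ≠ 0 := by
    intro h
    have h1 := hq ((i, j), tu i j m)
    rw [h, zero_div] at h1
    have h2 : wdg u v (i, j) / wdg u v (i, j) * (cub u v c (tu i j m) / cub u v c t) ≠ 0 := by
      rw [div_self hl, one_mul]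
      exact div_ne_zero hm hG
    exact h2 h1.symm
  let e : Fin (2 * N - 1) ≃ Ix i j m := (Fintype.equivFinOfCardEq (card_Ix hij hN m)).symm
  refine ⟨((i, j), tu i j m), fun n => rh i j m (e n),
    ps i j m fun n => (X (e.symm n) : MvPolynomial (Fin (2 * N - 1)) k), hj0, ?_, ?_, ?_, ?_⟩
  · exact ps_zero hij m _
  · intro n
    rw [ps_rh hij, Equiv.symm_apply_apply]
  · intro y
    have h1 : (fun n => eval y (ps i j m
        (fun n => (X (e.symm n) : MvPolynomial (Fin (2 * N - 1)) k)) n)) =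
        ps i j m fun n => y (e.symm n) := by
      funext n
      rw [ps_map]
      simp only [eval_X]
    rw [h1]
    have h2 : (ps i j m fun n => y (e.symm n)) ≠ 0 := by
      intro h
      have h3 := ps_zero hij m fun n => y (e.symm n)
      rw [h] at h3
      exact zero_ne_one h3
    obtain ⟨z, hz⟩ := exists_rep h2
    exact ⟨z, ⟨_, _, _, hz⟩, hz⟩
  · intro z hz V hV h0 n
    obtain ⟨u', v', c', hl', hG', hq', hpt'⟩ := chart_gen hz hV ((i, j), tu i j m) h0
    have h3 := hpt' n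
    rw [div_eq_iff h0, mul_comm] at h3
    rw [h3, ps_map]
    simp only [eval_X, Equiv.apply_symm_apply]
    congr 1
    unfold ps
    have hone : V ((i, j), tu i j m) / V ((i, j), tu i j m) = 1 := div_self h0
    have hU := eq_Ub hij (Uj ((i, j), tu i j m) fun n => V n / V ((i, j), tu i j m)) hone (by
      show V ((j, j), tu i j m) / V ((i, j), tu i j m) = 0
      rw [hq']
      simp [wdg, mul_comm])
    have hW := eq_Wb hij (Wj ((i, j), tu i j m) fun n => V n / V ((i, j), tu i j m)) (by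
      show V ((i, i), tu i j m) / V ((i, j), tu i j m) = 0
      rw [hq']
      simp [wdg, mul_comm]) hone
    have hC := eq_Cb m (Cj ((i, j), tu i j m) fun n => V n / V ((i, j), tu i j m)) hone
    rw [hU, hW, hC]
    rfl

end

/-- Job A1. -/
theorem done : StmVarX := by
  intro k _ _ _ N hN
  exact ⟨⟨closed k N, irreducible k N hN⟩, covered k N hN⟩

end Pool.Agent.Y215.MC.X
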