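import Pool.Agent.Y215.MC.Base

/-!
Project MC, job MC-VARY: the bundle `P (S) × P (Sym ^ 2 S)` is a projective variety covered by
affine spaces.
-/

set_option autoImplicit false
set_option linter.unusedSectionVars false
set_option linter.deprecated false

namespace Pool.Agent.Y215.MC.Y

open MvPolynomial Pool.Agent.Y166.GM Pool.Agent.Y166.SM Pool.Agent.Y198.MC Pool.Agent.Y215.MC

/-- The standard indices of the coefficients of the vector. -/
def tx {N : ℕ} (i j : Fin N) : Fin 2 → Fin N := ![i, j]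

/-- The standard indices of the coefficients of the tensor. -/
def tq {N : ℕ} (i j : Fin N) : Fin 3 → Fin N × Fin N := ![(i, i), (i, j), (j, j)]

section
variable {A : Type} [CommRing A] {N : ℕ}

/-- The first basis vector in the chart of the index `j0`. -/
def Uj (j0 : Co N) (V : Co N → A) : Fin N → A := fun r => V ((r, j0.1.2), j0.2)

/-- The second basis vector in the chart of the index `j0`. -/
def Wj (j0 : Co N) (V : Co N → A) : Fin N → A := fun r => V ((j0.1.1, r), j0.2)

/-- The coefficients of the vector in the chart of the index `j0`. -/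
def Xj (j0 : Co N) (V : Co N → A) : Fin 2 → A :=
  fun n => V (j0.1, (tx j0.1.1 j0.1.2 n, j0.2.2))

/-- The coefficients of the tensor in the chart of the index `j0`. -/
def Qj (j0 : Co N) (V : Co N → A) : Fin 3 → A :=
  fun n => V (j0.1, (j0.2.1, tq j0.1.1 j0.1.2 n))

/-- The equations of the chart. -/
noncomputable def Th (k : Type) [Field k] (N : ℕ) (j0 j : Co N) : MvPolynomial (Co N) k :=
  ptY (Uj j0 X) (Wj j0 X) (Xj j0 X) (Qj j0 X) j

theorem eval_Th {k : Type} [Field k] (V : Co N → k) (j0 j : Co N) :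
    eval V (Th k N j0 j) = ptY (Uj j0 V) (Wj j0 V) (Xj j0 V) (Qj j0 V) j := by
  unfold Th
  rw [ptY_map]
  have h1 : (fun i => eval V (Uj j0 (X : Co N → MvPolynomial (Co N) k) i)) = Uj j0 V := by
    funext i
    simp [Uj]
  have h2 : (fun i => eval V (Wj j0 (X : Co N → MvPolynomial (Co N) k) i)) = Wj j0 V := by
    funext i
    simp [Wj]
  have h3 : (fun i => eval V (Xj j0 (X : Co N → MvPolynomial (Co N) k) i)) = Xj j0 V := by
    funext i
    simp [Xj]
  have h4 : (fun i => eval V (Qj j0 (X : Co N → MvPolynomial (Co N) k) i)) = Qj j0 V := by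
    funext i
    simp [Qj]
  rw [h1, h2, h3, h4]

end

section
variable {k : Type} [Field k] {N : ℕ}

/-- The formulas in the chart of any index. -/
theorem chart_gen {x : PP k (Co N)} (hx : x ∈ YY k N) {V : Co N → k} (hV : Rep x V)
    (j0 : Co N) (h0 : V j0 ≠ 0) :
    ∃ (u v : Fin N → k) (c : Fin 2 → k) (q : Fin 3 → k), wdg u v j0.1 ≠ 0 ∧
      vec u v c j0.2.1 ≠ 0 ∧ quad u v q j0.2.2 ≠ 0 ∧
      (∀ j, V j / V j0 = (wdg u v j.1 / wdg u v j0.1) *
        ((vec u v c j.2.1 / vec u v c j0.2.1) * (quad u v q j.2.2 / quad u v q j0.2.2))) ∧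
      ∀ j, V j / V j0 = ptY (Uj j0 fun i => V i / V j0) (Wj j0 fun i => V i / V j0)
        (Xj j0 fun i => V i / V j0) (Qj j0 fun i => V i / V j0) j := by
  obtain ⟨u, v, c, q, hrep⟩ := hx
  obtain ⟨a, ha, hVa⟩ := hrep.exists_smul hV
  have hVj : ∀ j, V j = a * (wdg u v j.1 * (vec u v c j.2.1 * quad u v q j.2.2)) := by
    intro j
    rw [hVa]
    rfl
  have hl : wdg u v j0.1 ≠ 0 := by
    intro h
    apply h0
    rw [hVj, h, zero_mul, mul_zero]
  have hE : vec u v c j0.2.1 ≠ 0 := by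
    intro h
    apply h0
    rw [hVj, h, zero_mul, mul_zero, mul_zero]
  have hG : quad u v q j0.2.2 ≠ 0 := by
    intro h
    apply h0
    rw [hVj, h, mul_zero, mul_zero, mul_zero]
  have hq : ∀ j, V j / V j0 = (wdg u v j.1 / wdg u v j0.1) *
        ((vec u v c j.2.1 / vec u v c j0.2.1) * (quad u v q j.2.2 / quad u v q j0.2.2)) := by
    intro j
    rw [hVj, hVj]
    field_simp
  refine ⟨u, v, c, q, hl, hE, hG, hq, fun j => ?_⟩
  have hn := nrm_of u v j0.1.1 j0.1.2 hl
  have hU : (Uj j0 fun i => V i / V j0) = fun r => wdg u v (r, j0.1.2) / wdg u v j0.1 := by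
    funext r
    show V ((r, j0.1.2), j0.2) / V j0 = _
    rw [hq]
    simp only
    rw [div_self hG, div_self hE, mul_one, mul_one]
  have hW : (Wj j0 fun i => V i / V j0) = fun r => wdg u v (j0.1.1, r) / wdg u v j0.1 := by
    funext r
    show V ((j0.1.1, r), j0.2) / V j0 = _
    rw [hq]
    simp only
    rw [div_self hG, div_self hE, mul_one, mul_one]
  have hX : (Xj j0 fun i => V i / V j0) = fun n => (vec u v c j0.2.1)⁻¹ *
      (![vec u v c j0.1.1, vec u v c j0.1.2] : Fin 2 → k) n := by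
    funext n
    show V (j0.1, (tx j0.1.1 j0.1.2 n, j0.2.2)) / V j0 = _
    rw [hq]
    simp only
    rw [div_self hl, one_mul, div_self hG, mul_one, div_eq_inv_mul]
    congr 1
    fin_cases n <;> rfl
  have hQ : (Qj j0 fun i => V i / V j0) = fun n => (quad u v q j0.2.2)⁻¹ *
      (![quad u v q (j0.1.1, j0.1.1), quad u v q (j0.1.1, j0.1.2),
        quad u v q (j0.1.2, j0.1.2)] : Fin 3 → k) n := by
    funext n
    show V (j0.1, (j0.2.1, tq j0.1.1 j0.1.2 n)) / V j0 = _
    rw [hq]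
    simp only
    rw [div_self hl, one_mul, div_self hE, one_mul, div_eq_inv_mul]
    congr 1
    fin_cases n <;> rfl
  rw [hU, hW, hX, hQ]
  unfold ptY
  rw [vec_smul, quad_smul, hq, ← hn.vec c j.2.1, ← hn.quad q j.2.2]
  have h1 := hn.wdg j.1
  have h2 : wdg u v (j0.1.1, j0.1.2) = wdg u v j0.1 := rfl
  rw [h2] at h1
  rw [h1, mul_div_cancel_left₀ _ hl, div_eq_inv_mul, div_eq_inv_mul]

theorem closed (k : Type) [Field k] (N : ℕ) : IsClosed (YY k N) := by
  apply closed_of_chart (YY k N) (Th k N)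
  · intro x hx V hV j0 h0 j
    obtain ⟨u, v, c, q, -, -, -, -, h⟩ := chart_gen hx hV j0 h0
    rw [eval_Th]
    exact h j
  · intro p V hV j0 h0 h
    refine ⟨Uj j0 fun i => V i / V j0, Wj j0 fun i => V i / V j0, Xj j0 fun i => V i / V j0,
      Qj j0 fun i => V i / V j0, ?_⟩
    have h1 : ptY (Uj j0 fun i => V i / V j0) (Wj j0 fun i => V i / V j0)
        (Xj j0 fun i => V i / V j0) (Qj j0 fun i => V i / V j0) = (V j0)⁻¹ • V := by
      funext j
      rw [← eval_Th, ← h j, Pi.smul_apply, smul_eq_mul, div_eq_inv_mul]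
    rw [h1]
    exact hV.smul (inv_ne_zero h0)

/-- The polynomials which parametrise the variety. -/
noncomputable def Ph (k : Type) [Field k] (N : ℕ) (j : Co N) :
    MvPolynomial (Fin N ⊕ (Fin N ⊕ (Fin 2 ⊕ Fin 3))) k :=
  ptY (fun i => X (.inl i)) (fun i => X (.inr (.inl i))) (fun i => X (.inr (.inr (.inl i))))
    (fun i => X (.inr (.inr (.inr i)))) j

theorem eval_Ph (c : Fin N ⊕ (Fin N ⊕ (Fin 2 ⊕ Fin 3)) → k) (j : Co N) :
    eval c (Ph k N j) = ptY (fun i => c (.inl i)) (fun i => c (.inr (.inl i)))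
      (fun i => c (.inr (.inr (.inl i)))) (fun i => c (.inr (.inr (.inr i)))) j := by
  unfold Ph
  rw [ptY_map]
  simp only [eval_X]

theorem nonempty (k : Type) [Field k] (N : ℕ) (hN : 3 ≤ N) : (YY k N).Nonempty := by
  have h0 : (⟨0, by omega⟩ : Fin N) ≠ ⟨1, by omega⟩ := by
    intro h
    have := congrArg Fin.val h
    simp at this
  have h1 : ptY (Ub ⟨0, by omega⟩ ⟨1, by omega⟩ (fun _ => (0 : k)))
      (Wb ⟨0, by omega⟩ ⟨1, by omega⟩ (fun _ => (0 : k))) ![1, 0] ![1, 0, 0] ≠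
      (0 : Co N → k) := by
    intro h
    have h2 := congrFun h ((⟨0, by omega⟩, ⟨1, by omega⟩), (⟨0, by omega⟩, (⟨0, by omega⟩,
      ⟨0, by omega⟩)))
    simp only [ptY, wdg, vec, quad, Ub_i, Wb_j, Wb_i h0, Ub_j h0] at h2
    simp at h2
  obtain ⟨z, hz⟩ := exists_rep h1
  exact ⟨z, _, _, _, _, hz⟩

theorem irreducible (k : Type) [Field k] [Infinite k] (N : ℕ) (hN : 3 ≤ N) :
    IsIrreducible (YY k N) := by
  apply irreducible_of_param (YY k N) (Ph k N) _ (nonempty k N hN)
  intro z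
  constructor
  · rintro ⟨u, v, c, q, h⟩
    refine ⟨Sum.elim u (Sum.elim v (Sum.elim c q)), ?_⟩
    simp only [eval_Ph, Sum.elim_inl, Sum.elim_inr]
    exact h
  · rintro ⟨c, h⟩
    simp only [eval_Ph] at h
    exact ⟨_, _, _, _, h⟩

/-- The parameters of the chart. -/
abbrev Ix {N : ℕ} (i j : Fin N) (e : Fin 2) (m : Fin 3) : Type :=
  (Rx i j ⊕ Rx i j) ⊕ ({n : Fin 2 // n ≠ e} ⊕ {n : Fin 3 // n ≠ m})

/-- The coefficients in the chart. -/
def Cb {A : Type} [CommRing A] {d : ℕ} (m : Fin d) (y : {n : Fin d // n ≠ m} → A) : Fin d → A :=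
  fun n => if h : n ≠ m then y ⟨n, h⟩ else 1

theorem Cb_m {A : Type} [CommRing A] {d : ℕ} (m : Fin d) (y : {n : Fin d // n ≠ m} → A) :
    Cb m y m = 1 := by
  simp [Cb]

theorem Cb_n {A : Type} [CommRing A] {d : ℕ} (m : Fin d) (y : {n : Fin d // n ≠ m} → A)
    (n : {n : Fin d // n ≠ m}) : Cb m y n.1 = y n := by
  simp [Cb, n.2]

theorem Cb_map {A B : Type} [CommRing A] [CommRing B] (f : A →+* B) {d : ℕ} (m : Fin d)
    (y : {n : Fin d // n ≠ m} → A) (n : Fin d) : f (Cb m y n) = Cb m (fun n => f (y n)) n := by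
  unfold Cb
  split_ifs <;> simp

theorem eq_Cb {A : Type} [CommRing A] {d : ℕ} (m : Fin d) (z : Fin d → A) (hz : z m = 1) :
    z = Cb m fun n => z n.1 := by
  funext n
  by_cases h : n = m
  · rw [h, Cb_m, hz]
  · exact (Cb_n m (fun n : {n : Fin d // n ≠ m} => z n.1) ⟨n, h⟩).symm

/-- The coordinates of the points of the chart. -/
def ps {A : Type} [CommRing A] {N : ℕ} (i j : Fin N) (e : Fin 2) (m : Fin 3)
    (c : Ix i j e m → A) : Co N → A :=
  ptY (Ub i j fun r => c (.inl (.inl r))) (Wb i j fun r => c (.inl (.inr r)))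
    (Cb e fun n => c (.inr (.inl n))) (Cb m fun n => c (.inr (.inr n)))

/-- The coordinates which give the parameters. -/
def rh {N : ℕ} (i j : Fin N) (e : Fin 2) (m : Fin 3) : Ix i j e m → Co N
  | .inl (.inl r) => ((r.1, j), (tx i j e, tq i j m))
  | .inl (.inr r) => ((i, r.1), (tx i j e, tq i j m))
  | .inr (.inl n) => ((i, j), (tx i j n.1, tq i j m))
  | .inr (.inr n) => ((i, j), (tx i j e, tq i j n.1))

theorem vec_tx {A : Type} [CommRing A] {i j : Fin N} (hij : i ≠ j) (y y' : Rx i j → A)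
    (c : Fin 2 → A) (n : Fin 2) : vec (Ub i j y) (Wb i j y') c (tx i j n) = c n := by
  fin_cases n <;> simp [tx, vec, Ub_i, Wb_j, Wb_i hij, Ub_j hij]

theorem quad_tq {A : Type} [CommRing A] {i j : Fin N} (hij : i ≠ j) (y y' : Rx i j → A)
    (c : Fin 3 → A) (n : Fin 3) : quad (Ub i j y) (Wb i j y') c (tq i j n) = c n := by
  fin_cases n <;> simp [tq, quad, Ub_i, Wb_j, Wb_i hij, Ub_j hij]

theorem ps_zero {A : Type} [CommRing A] {i j : Fin N} (hij : i ≠ j) (e : Fin 2) (m : Fin 3)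
    (c : Ix i j e m → A) : ps i j e m c ((i, j), (tx i j e, tq i j m)) = 1 := by
  unfold ps ptY
  simp only
  rw [vec_tx hij, quad_tq hij, Cb_m, Cb_m]
  simp [wdg, Ub_i, Wb_j, Wb_i hij, Ub_j hij]

theorem ps_rh {A : Type} [CommRing A] {i j : Fin N} (hij : i ≠ j) (e : Fin 2) (m : Fin 3)
    (c : Ix i j e m → A) (t : Ix i j e m) : ps i j e m c (rh i j e m t) = c t := by
  rcases t with (r | r) | (n | n)
  · simp only [ps, ptY, rh]
    rw [vec_tx hij, quad_tq hij, Cb_m, Cb_m]
    simp [wdg, Ub_r, Wb_j, Ub_j hij]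
  · simp only [ps, ptY, rh]
    rw [vec_tx hij, quad_tq hij, Cb_m, Cb_m]
    simp [wdg, Wb_r, Ub_i, Wb_i hij]
  · simp only [ps, ptY, rh]
    rw [vec_tx hij, quad_tq hij, Cb_n, Cb_m]
    simp [wdg, Ub_i, Wb_j, Wb_i hij, Ub_j hij]
  · simp only [ps, ptY, rh]
    rw [vec_tx hij, quad_tq hij, Cb_n, Cb_m]
    simp [wdg, Ub_i, Wb_j, Wb_i hij, Ub_j hij]

theorem ps_map {A B : Type} [CommRing A] [CommRing B] (f : A →+* B) (i j : Fin N) (e : Fin 2)
    (m : Fin 3) (c : Ix i j e m → A) (t : Co N) :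
    f (ps i j e m c t) = ps i j e m (fun i => f (c i)) t := by
  unfold ps
  rw [ptY_map]
  simp only [Ub_map, Wb_map, Cb_map]

theorem card_Ix {i j : Fin N} (hij : i ≠ j) (hN : 3 ≤ N) (e : Fin 2) (m : Fin 3) :
    Fintype.card (Ix i j e m) = 2 * N - 1 := by
  have h1 : Fintype.card {n : Fin 3 // n ≠ m} = 2 := by
    rw [Fintype.card_subtype_compl, Fintype.card_fin, Fintype.card_subtype_eq]
  have h2 : Fintype.card {n : Fin 2 // n ≠ e} = 1 := by
    rw [Fintype.card_subtype_compl, Fintype.card_fin, Fintype.card_subtype_eq]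
  rw [Fintype.card_sum, Fintype.card_sum, Fintype.card_sum, card_Rx hij, h1, h2]
  omega

theorem covered (k : Type) [Field k] (N : ℕ) (hN : 3 ≤ N) :
    CoveredByAffine (YY k N) (2 * N - 1) := by
  classical
  intro x hx
  have hrep := rep_rep x
  obtain ⟨j1, hj1⟩ : ∃ j0, x.rep j0 ≠ 0 := by
    by_contra hcon
    push Not at hcon
    exact hrep.ne_zero (funext hcon)
  obtain ⟨⟨i, j⟩, ⟨t, s⟩⟩ := j1
  -- the indices
  obtain ⟨u, v, c, w, hl, hE, hG, hq, hpt⟩ := chart_gen hx hrep ((i, j), (t, s)) hj1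
  have hij : i ≠ j := by
    rintro rfl
    apply hl
    simp [wdg, mul_comm]
  have hn := nrm_of u v i j hl
  obtain ⟨e, he⟩ : ∃ e, vec u v c (tx i j e) ≠ 0 := by
    by_contra hcon
    push Not at hcon
    apply hE
    show vec u v c t = 0
    rw [hn.vec c t]
    have h0 := hcon 0
    have h1 := hcon 1
    simp only [tx, Matrix.cons_val_zero, Matrix.cons_val_one] at h0 h1
    rw [h0, h1]
    simp [vec]
  obtain ⟨m, hm⟩ : ∃ m, quad u v w (tq i j m) ≠ 0 := by
    by_contra hcon
    push Not at hcon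
    apply hG
    show quad u v w s = 0
    rw [hn.quad w s]
    have h0 := hcon 0
    have h1 := hcon 1
    have h2 := hcon 2
    simp only [tq, Matrix.cons_val_zero, Matrix.cons_val_one, Matrix.cons_val] at h0 h1 h2
    rw [h0, h1, h2]
    simp [quad]
  have hj0 : x.rep ((i, j), (tx i j e, tq i j m)) ≠ 0 := by
    intro h
    have h1 := hq ((i, j), (tx i j e, tq i j m))
    rw [h, zero_div] at h1
    have h2 : wdg u v (i, j) / wdg u v (i, j) * (vec u v c (tx i j e) / vec u v c t *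
        (quad u v w (tq i j m) / quad u v w s)) ≠ 0 := by
      rw [div_self hl, one_mul]
      exact mul_ne_zero (div_ne_zero he hE) (div_ne_zero hm hG)
    exact h2 h1.symm
  let f : Fin (2 * N - 1) ≃ Ix i j e m := (Fintype.equivFinOfCardEq (card_Ix hij hN e m)).symm
  refine ⟨((i, j), (tx i j e, tq i j m)), fun n => rh i j e m (f n),
    ps i j e m fun n => (X (f.symm n) : MvPolynomial (Fin (2 * N - 1)) k), hj0, ?_, ?_, ?_, ?_⟩
  · exact ps_zero hij e m _
  · intro n
    rw [ps_rh hij, Equiv.symm_apply_apply]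
  · intro y
    have h1 : (fun n => eval y (ps i j e m
        (fun n => (X (f.symm n) : MvPolynomial (Fin (2 * N - 1)) k)) n)) =
        ps i j e m fun n => y (f.symm n) := by
      funext n
      rw [ps_map]
      simp only [eval_X]
    rw [h1]
    have h2 : (ps i j e m fun n => y (f.symm n)) ≠ 0 := by
      intro h
      have h3 := ps_zero hij e m fun n => y (f.symm n)
      rw [h] at h3
      exact zero_ne_one h3
    obtain ⟨z, hz⟩ := exists_rep h2
    exact ⟨z, ⟨_, _, _, _, hz⟩, hz⟩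
  · intro z hz V hV h0 n
    obtain ⟨u', v', c', w', hl', hE', hG', hq', hpt'⟩ :=
      chart_gen hz hV ((i, j), (tx i j e, tq i j m)) h0
    have h3 := hpt' n
    rw [div_eq_iff h0, mul_comm] at h3
    rw [h3, ps_map]
    simp only [eval_X, Equiv.apply_symm_apply]
    congr 1
    unfold ps
    have hone : V ((i, j), (tx i j e, tq i j m)) / V ((i, j), (tx i j e, tq i j m)) = 1 :=
      div_self h0
    have hU := eq_Ub hij (Uj ((i, j), (tx i j e, tq i j m))
      fun n => V n / V ((i, j), (tx i j e, tq i j m))) hone (by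
      show V ((j, j), (tx i j e, tq i j m)) / V ((i, j), (tx i j e, tq i j m)) = 0
      rw [hq']
      simp [wdg, mul_comm])
    have hW := eq_Wb hij (Wj ((i, j), (tx i j e, tq i j m))
      fun n => V n / V ((i, j), (tx i j e, tq i j m))) (by
      show V ((i, i), (tx i j e, tq i j m)) / V ((i, j), (tx i j e, tq i j m)) = 0
      rw [hq']
      simp [wdg, mul_comm]) hone
    have hX := eq_Cb e (Xj ((i, j), (tx i j e, tq i j m))
      fun n => V n / V ((i, j), (tx i j e, tq i j m))) hone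
    have hQ := eq_Cb m (Qj ((i, j), (tx i j e, tq i j m))
      fun n => V n / V ((i, j), (tx i j e, tq i j m))) hone
    rw [hU, hW, hX, hQ]
    rfl

end

/-- Job A2. -/
theorem done : StmVarY := by
  intro k _ _ _ N hN
  exact ⟨⟨closed k N, irreducible k N hN⟩, covered k N hN⟩

end Pool.Agent.Y215.MC.Y
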