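import Pool.Agent.Y198.MC.Stm

/-!
Project MC, jobs MC-VARX and MC-VARY: general lemmas.
-/

set_option autoImplicit false
set_option linter.unusedSectionVars false
set_option linter.deprecated false

namespace Pool.Agent.Y215.MC

open MvPolynomial Pool.Agent.Y166.GM Pool.Agent.Y166.SM Pool.Agent.Y198.MC

section gen
variable {k : Type} [Field k] {σ : Type}

/-- Closedness from equations in the affine charts. -/
theorem closed_of_chart (Z : Set (PP k σ)) (Θ : σ → σ → MvPolynomial σ k)
    (h1 : ∀ x ∈ Z, ∀ V : σ → k, Rep x V → ∀ j0, V j0 ≠ 0 →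
      ∀ j, V j / V j0 = eval (fun i => V i / V j0) (Θ j0 j))
    (h2 : ∀ (p : PP k σ) (V : σ → k), Rep p V → ∀ j0, V j0 ≠ 0 →
      (∀ j, V j / V j0 = eval (fun i => V i / V j0) (Θ j0 j)) → p ∈ Z) : IsClosed Z := by
  rw [← isOpen_compl_iff, isOpen_iff_forall_mem_open]
  intro p hp
  have hrep := rep_rep p
  obtain ⟨j0, hj0⟩ : ∃ j0, p.rep j0 ≠ 0 := by
    by_contra hcon
    push Not at hcon
    exact hrep.ne_zero (funext hcon)
  obtain ⟨G, hG0, hG⟩ : ∃ G : MvPolynomial σ k,
      (eval (fun j => p.rep j / p.rep j0) G ≠ 0) ∧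
      ∀ x ∈ Z, ∀ V : σ → k, Rep x V → V j0 ≠ 0 →
        eval (fun j => V j / V j0) G = 0 := by
    by_contra hcon
    push Not at hcon
    apply hp
    refine h2 p p.rep hrep j0 hj0 fun j => ?_
    by_contra hne
    obtain ⟨x, hx, V, hV, hV0, hne0⟩ := hcon (X j - Θ j0 j) (by
      rw [map_sub, eval_X]
      exact sub_ne_zero.2 hne)
    apply hne0
    rw [map_sub, eval_X, sub_eq_zero]
    exact h1 x hx V hV j0 hV0 j
  obtain ⟨Gh, hGh, hGh2⟩ := exists_homog G le_rfl j0 (id : σ → σ)
  have hhom : (X j0 * Gh : MvPolynomial σ k).IsHomogeneous (1 + G.totalDegree) :=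
    (isHomogeneous_X k j0).mul hGh
  have hval : ∀ q : PP k σ, q.rep j0 ≠ 0 → eval q.rep Gh =
      (q.rep j0) ^ G.totalDegree * eval (fun i => q.rep i / q.rep j0) G := by
    intro q hq0
    have h1 := hGh2 k q.rep hq0
    rw [aeval_eq_eval] at h1
    exact h1
  refine ⟨{q | eval q.rep (X j0 * Gh) ≠ 0}, ?_, isOpen_basic hhom, ?_⟩
  · intro q hq hqX
    apply hq
    rw [map_mul, eval_X]
    by_cases hq0 : q.rep j0 = 0
    · rw [hq0, zero_mul]
    · rw [hval q hq0, hG q hqX q.rep (rep_rep q) hq0, mul_zero, mul_zero]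
  · show eval p.rep (X j0 * Gh) ≠ 0
    rw [map_mul, eval_X, hval p hj0]
    exact mul_ne_zero hj0 (mul_ne_zero (pow_ne_zero _ hj0) hG0)

/-- The image of an affine space is irreducible. -/
theorem irreducible_of_param [Infinite k] {ι : Type} (Z : Set (PP k σ))
    (Φ : σ → MvPolynomial ι k)
    (hZ : ∀ z, z ∈ Z ↔ ∃ c : ι → k, Rep z (fun j => eval c (Φ j)))
    (hne : Z.Nonempty) : IsIrreducible Z := by
  refine ⟨hne, ?_⟩
  have hpull : ∀ (P : MvPolynomial σ k) (c : ι → k), eval c (aeval Φ P) =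
      eval (fun j => eval c (Φ j)) P := by
    intro P c
    have h1 : (eval c).comp (aeval Φ : MvPolynomial σ k →ₐ[k] MvPolynomial ι k).toRingHom =
        eval (fun j => eval c (Φ j)) := by
      apply MvPolynomial.ringHom_ext
      · intro r
        simp
      · intro i
        simp
    exact congrArg (fun φ : MvPolynomial σ k →+* k => φ P) h1
  apply isPreirreducible_of
  rintro m n P Q hP hQ ⟨p, hp, hp0⟩ ⟨q, hq, hq0⟩
  obtain ⟨c1, hc1⟩ := (hZ p).1 hp
  obtain ⟨c2, hc2⟩ := (hZ q).1 hq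
  have hP1 : aeval Φ P ≠ 0 := by
    intro h
    apply hp0
    rw [← zero_iff hc1 hP, ← hpull, h, map_zero]
  have hQ1 : aeval Φ Q ≠ 0 := by
    intro h
    apply hq0
    rw [← zero_iff hc2 hQ, ← hpull, h, map_zero]
  obtain ⟨j, hj⟩ := Function.ne_iff.1 hc1.ne_zero
  have hj1 : Φ j ≠ 0 := by
    intro h
    apply hj
    simp only [h, map_zero]
    rfl
  have hprod : Φ j * (aeval Φ P * aeval Φ Q) ≠ 0 := mul_ne_zero hj1 (mul_ne_zero hP1 hQ1)
  obtain ⟨c, hc⟩ : ∃ c, eval c (Φ j * (aeval Φ P * aeval Φ Q)) ≠ 0 := by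
    by_contra hcon
    push Not at hcon
    apply hprod
    apply MvPolynomial.funext
    intro c
    rw [hcon, map_zero]
  rw [map_mul, map_mul] at hc
  have hcj := left_ne_zero_of_mul hc
  have hcP := left_ne_zero_of_mul (right_ne_zero_of_mul hc)
  have hcQ := right_ne_zero_of_mul (right_ne_zero_of_mul hc)
  have h0 : (fun j => eval c (Φ j)) ≠ 0 := by
    intro h
    exact hcj (congrFun h j)
  obtain ⟨z, hz⟩ := exists_rep h0
  refine ⟨z, (hZ z).2 ⟨c, hz⟩, ?_, ?_⟩
  · rw [Ne, ← zero_iff hz hP, ← hpull]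
    exact hcP
  · rw [Ne, ← zero_iff hz hQ, ← hpull]
    exact hcQ

end gen

section plane
variable {A : Type} [CommRing A] {N : ℕ}

/-- `u` and `v` in terms of the basis `U`, `W` which is normalised at the indices `i`, `j`. -/
structure Nrm (u v U W : Fin N → A) (i j : Fin N) : Prop where
  u : ∀ r, u r = u i * U r + u j * W r
  v : ∀ r, v r = v i * U r + v j * W r

theorem Nrm.wdg {u v U W : Fin N → A} {i j : Fin N} (h : Nrm u v U W i j) (s : Sg N) :
    wdg u v s = wdg u v (i, j) * wdg U W s := by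
  have h1 := h.u s.1
  have h2 := h.u s.2
  have h3 := h.v s.1
  have h4 := h.v s.2
  unfold Pool.Agent.Y198.MC.wdg
  simp only
  rw [h1, h2, h3, h4]
  ring

theorem Nrm.cub {u v U W : Fin N → A} {i j : Fin N} (h : Nrm u v U W i j) (c : Fin 4 → A)
    (t : Ta N) : cub u v c t = cub U W ![cub u v c (i, i, i), cub u v c (i, i, j),
      cub u v c (i, j, j), cub u v c (j, j, j)] t := by
  have h1 := h.u t.1
  have h2 := h.u t.2.1
  have h3 := h.u t.2.2
  have h4 := h.v t.1
  have h5 := h.v t.2.1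
  have h6 := h.v t.2.2
  unfold Pool.Agent.Y198.MC.cub
  simp only [Matrix.cons_val_zero, Matrix.cons_val_one, Matrix.cons_val]
  rw [h1, h2, h3, h4, h5, h6]
  ring

theorem Nrm.vec {u v U W : Fin N → A} {i j : Fin N} (h : Nrm u v U W i j) (x : Fin 2 → A)
    (t : Fin N) : vec u v x t = vec U W ![vec u v x i, vec u v x j] t := by
  have h1 := h.u t
  have h4 := h.v t
  unfold Pool.Agent.Y198.MC.vec
  simp only [Matrix.cons_val_zero, Matrix.cons_val_one]
  rw [h1, h4]
  ring

theorem Nrm.quad {u v U W : Fin N → A} {i j : Fin N} (h : Nrm u v U W i j) (q : Fin 3 → A)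
    (t : Fin N × Fin N) : quad u v q t = quad U W ![quad u v q (i, i), quad u v q (i, j),
      quad u v q (j, j)] t := by
  have h1 := h.u t.1
  have h2 := h.u t.2
  have h4 := h.v t.1
  have h5 := h.v t.2
  unfold Pool.Agent.Y198.MC.quad
  simp only [Matrix.cons_val_zero, Matrix.cons_val_one, Matrix.cons_val]
  rw [h1, h2, h4, h5]
  ring

end plane

theorem nrm_of {k : Type} [Field k] {N : ℕ} (u v : Fin N → k) (i j : Fin N)
    (h : wdg u v (i, j) ≠ 0) :
    Nrm u v (fun r => wdg u v (r, j) / wdg u v (i, j)) (fun r => wdg u v (i, r) / wdg u v (i, j))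
      i j := by
  constructor
  · intro r
    field_simp
    unfold wdg
    ring
  · intro r
    field_simp
    unfold wdg
    ring

section smul
variable {A : Type} [CommRing A] {N : ℕ}

theorem cub_smul (u v : Fin N → A) (a : A) (c : Fin 4 → A) (t : Ta N) :
    cub u v (fun n => a * c n) t = a * cub u v c t := by
  unfold cub
  ring

theorem vec_smul (u v : Fin N → A) (a : A) (c : Fin 2 → A) (t : Fin N) :
    vec u v (fun n => a * c n) t = a * vec u v c t := by
  unfold vec
  ring

theorem quad_smul (u v : Fin N → A) (a : A) (c : Fin 3 → A) (t : Fin N × Fin N) :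
    quad u v (fun n => a * c n) t = a * quad u v c t := by
  unfold quad
  ring

end smul

section map
variable {A B : Type} [CommRing A] [CommRing B] (f : A →+* B) {N : ℕ}

theorem wdg_map (u v : Fin N → A) (s : Sg N) :
    f (wdg u v s) = wdg (fun i => f (u i)) (fun i => f (v i)) s := by
  simp [wdg]

theorem cub_map (u v : Fin N → A) (c : Fin 4 → A) (t : Ta N) :
    f (cub u v c t) = cub (fun i => f (u i)) (fun i => f (v i)) (fun i => f (c i)) t := by
  simp [cub]

theorem vec_map (u v : Fin N → A) (c : Fin 2 → A) (t : Fin N) :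
    f (vec u v c t) = vec (fun i => f (u i)) (fun i => f (v i)) (fun i => f (c i)) t := by
  simp [vec]

theorem quad_map (u v : Fin N → A) (c : Fin 3 → A) (t : Fin N × Fin N) :
    f (quad u v c t) = quad (fun i => f (u i)) (fun i => f (v i)) (fun i => f (c i)) t := by
  simp [quad]

theorem ptX_map (u v : Fin N → A) (c : Fin 4 → A) (t : Co N) :
    f (ptX u v c t) = ptX (fun i => f (u i)) (fun i => f (v i)) (fun i => f (c i)) t := by
  unfold ptX
  rw [map_mul, wdg_map, cub_map]

theorem ptY_map (u v : Fin N → A) (x : Fin 2 → A) (q : Fin 3 → A) (t : Co N) :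
    f (ptY u v x q t) = ptY (fun i => f (u i)) (fun i => f (v i)) (fun i => f (x i))
      (fun i => f (q i)) t := by
  unfold ptY
  rw [map_mul, map_mul, wdg_map, vec_map, quad_map]

end map

section basis
variable {A : Type} [CommRing A] {N : ℕ} (i j : Fin N)

/-- The indices of the parameters of the plane. -/
abbrev Rx (i j : Fin N) : Type := {r : Fin N // r ≠ i ∧ r ≠ j}

/-- The first vector of the normalised basis. -/
def Ub (y : Rx i j → A) : Fin N → A := fun r =>
  if h : r ≠ i ∧ r ≠ j then y ⟨r, h⟩ else if r = i then 1 else 0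

/-- The second vector of the normalised basis. -/
def Wb (y : Rx i j → A) : Fin N → A := fun r =>
  if h : r ≠ i ∧ r ≠ j then y ⟨r, h⟩ else if r = j then 1 else 0

variable {i j}

theorem Ub_i (y : Rx i j → A) : Ub i j y i = 1 := by
  simp [Ub]

theorem Ub_j (hij : i ≠ j) (y : Rx i j → A) : Ub i j y j = 0 := by
  simp [Ub, hij.symm]

theorem Wb_i (hij : i ≠ j) (y : Rx i j → A) : Wb i j y i = 0 := by
  simp [Wb, hij]

theorem Wb_j (y : Rx i j → A) : Wb i j y j = 1 := by
  simp [Wb]

theorem Ub_r (y : Rx i j → A) (r : Rx i j) : Ub i j y r.1 = y r := by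
  simp [Ub, r.2]

theorem Wb_r (y : Rx i j → A) (r : Rx i j) : Wb i j y r.1 = y r := by
  simp [Wb, r.2]

theorem Ub_map {B : Type} [CommRing B] (f : A →+* B) (y : Rx i j → A) (r : Fin N) :
    f (Ub i j y r) = Ub i j (fun r => f (y r)) r := by
  unfold Ub
  split_ifs <;> simp

theorem Wb_map {B : Type} [CommRing B] (f : A →+* B) (y : Rx i j → A) (r : Fin N) :
    f (Wb i j y r) = Wb i j (fun r => f (y r)) r := by
  unfold Wb
  split_ifs <;> simp

/-- A vector with `1` and `0` at `i` and `j` is a first vector of a normalised basis. -/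
theorem eq_Ub (hij : i ≠ j) (z : Fin N → A) (hi : z i = 1) (hj : z j = 0) :
    z = Ub i j fun r => z r.1 := by
  funext r
  by_cases h1 : r = i
  · rw [h1, Ub_i, hi]
  · by_cases h2 : r = j
    · rw [h2, Ub_j hij, hj]
    · exact (Ub_r (fun r : Rx i j => z r.1) ⟨r, h1, h2⟩).symm

theorem eq_Wb (hij : i ≠ j) (z : Fin N → A) (hi : z i = 0) (hj : z j = 1) :
    z = Wb i j fun r => z r.1 := by
  funext r
  by_cases h1 : r = i
  · rw [h1, Wb_i hij, hi]
  · by_cases h2 : r = j
    · rw [h2, Wb_j, hj]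
    · exact (Wb_r (fun r : Rx i j => z r.1) ⟨r, h1, h2⟩).symm

theorem card_Rx (hij : i ≠ j) : Fintype.card (Rx i j) = N - 2 := by
  have h1 : Fintype.card (Rx i j) = (Finset.univ.filter fun r : Fin N => r ≠ i ∧ r ≠ j).card :=
    Fintype.card_subtype _
  have h2 : (Finset.univ.filter fun r : Fin N => r ≠ i ∧ r ≠ j) = Finset.univ \ {i, j} := by
    ext r
    simp [not_or]
  rw [h1, h2, Finset.card_sdiff_of_subset (Finset.subset_univ _), Finset.card_univ,
    Fintype.card_fin, Finset.card_pair hij]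

end basis

end Pool.Agent.Y215.MC
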